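import Pool.Agent.Helper531.PP.PM
import Pool.Agent.Helper162.Arc.PA

set_option autoImplicit false
set_option linter.unusedSectionVars false

open Set Filter Topology unitInterval

namespace Pool.Agent.Helper531.PP

/-- three closed sets covering the unit square -/
theorem square3 (D0 D1 D2 : Set (ℝ × ℝ)) (h0 : IsClosed D0) (h1 : IsClosed D1) (h2 : IsClosed D2)
    (hcov : ∀ x ∈ Icc (0 : ℝ) 1, ∀ y ∈ Icc (0 : ℝ) 1, (x, y) ∈ D0 ∪ (D1 ∪ D2))
    (hR : ∀ y, ((1 : ℝ), y) ∉ D0) (hL : ∀ y, ((0 : ℝ), y) ∉ D1 ∪ D2)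
    (hT : ∀ x, (x, (1 : ℝ)) ∉ D1) (hB : ∀ x, (x, (0 : ℝ)) ∉ D2) :
    ∃ z, z ∈ D0 ∧ z ∈ D1 ∧ z ∈ D2 := by
  by_contra hcon
  push Not at hcon
  have h01 : (0 : ℝ) ∈ Icc (0 : ℝ) 1 := by simp
  have h11 : (1 : ℝ) ∈ Icc (0 : ℝ) 1 := by simp
  set P : Set (ℝ × ℝ) := (D0 ∩ D1) ∪ {z | z.2 = 0} with hP
  set Q : Set (ℝ × ℝ) := (D0 ∩ D2) ∪ {z | z.2 = 1} with hQ
  have hPc : IsClosed P := (h0.inter h1).union (isClosed_eq continuous_snd continuous_const)
  have hQc : IsClosed Q := (h0.inter h2).union (isClosed_eq continuous_snd continuous_const)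
  have hPn : P.Nonempty := ⟨(0, 0), Or.inr rfl⟩
  have hQn : Q.Nonempty := ⟨(0, 1), Or.inr rfl⟩
  have hPQ : ∀ z, z ∈ P → z ∉ Q := by
    rintro ⟨x, y⟩ hz hz'
    rcases hz with hz | hz <;> rcases hz' with hz' | hz'
    · exact hcon _ hz.1 hz.2 hz'.2
    · have : y = 1 := hz'
      subst this
      exact hT x hz.2
    · have : y = 0 := hz
      subst this
      exact hB x hz'.2
    · have e1 : y = 0 := hz
      have e2 : y = 1 := hz'
      rw [e1] at e2
      exact zero_ne_one e2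
  have hD0n : D0.Nonempty := by
    have := hcov 0 h01 0 h01
    rcases this with h | h
    · exact ⟨_, h⟩
    · exact absurd h (hL 0)
  have hD12n : (D1 ∪ D2).Nonempty := by
    have := hcov 1 h11 0 h01
    rcases this with h | h
    · exact absurd h (hR 0)
    · exact ⟨_, h⟩
  have h12 : IsClosed (D1 ∪ D2) := h1.union h2
  let u : ℝ × ℝ → ℝ := fun z => Metric.infDist z D0 - Metric.infDist z (D1 ∪ D2)
  let v : ℝ × ℝ → ℝ := fun z => Metric.infDist z P - Metric.infDist z Q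
  have hu : Continuous u := (Metric.continuous_infDist_pt _).sub (Metric.continuous_infDist_pt _)
  have hv : Continuous v := (Metric.continuous_infDist_pt _).sub (Metric.continuous_infDist_pt _)
  have hpos : ∀ {S : Set (ℝ × ℝ)}, IsClosed S → S.Nonempty → ∀ z, z ∉ S →
      0 < Metric.infDist z S := by
    intro S hS hSn z hz
    exact (hS.notMem_iff_infDist_pos hSn).1 hz
  have hzero : ∀ {S : Set (ℝ × ℝ)} z, z ∈ S → Metric.infDist z S = 0 := by
    intro S z hz
    exact Metric.infDist_zero_of_mem hz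
  obtain ⟨x, hx, y, hy, hv0, hu0⟩ := Helper531.PM.poincare_miranda 0 1 0 1 zero_le_one zero_le_one
    v u hv.continuousOn hu.continuousOn
    (by
      intro y hy
      have hz : ((0 : ℝ), y) ∈ D0 := (hcov 0 h01 y hy).resolve_right (hL y)
      have e1 := hzero _ hz
      have e2 := hpos h12 hD12n _ (hL y)
      show Metric.infDist _ _ - Metric.infDist _ _ < 0
      linarith)
    (by
      intro y hy
      have hz : ((1 : ℝ), y) ∈ D1 ∪ D2 := (hcov 1 h11 y hy).resolve_left (hR y)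
      have e1 := hzero _ hz
      have e2 := hpos h0 hD0n _ (hR y)
      show 0 < Metric.infDist _ _ - Metric.infDist _ _
      linarith)
    (by
      intro x hx
      have hz : (x, (0 : ℝ)) ∈ P := Or.inr rfl
      have e1 := hzero _ hz
      have e2 := hpos hQc hQn _ (hPQ _ hz)
      show Metric.infDist _ _ - Metric.infDist _ _ < 0
      linarith)
    (by
      intro x hx
      have hz : (x, (1 : ℝ)) ∈ Q := Or.inr rfl
      have e1 := hzero _ hz
      have e2 := hpos hPc hPn _ (fun h => hPQ _ h hz)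
      show 0 < Metric.infDist _ _ - Metric.infDist _ _
      linarith)
  have hu0' : Metric.infDist (x, y) D0 = Metric.infDist (x, y) (D1 ∪ D2) := by
    have : Metric.infDist (x, y) D0 - Metric.infDist (x, y) (D1 ∪ D2) = 0 := hu0
    linarith
  have hv0' : Metric.infDist (x, y) P = Metric.infDist (x, y) Q := by
    have : Metric.infDist (x, y) P - Metric.infDist (x, y) Q = 0 := hv0
    linarith
  have hz0 : (x, y) ∈ D0 := by
    by_contra h
    have e1 := hpos h0 hD0n _ h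
    have e2 := hzero _ ((hcov x hx y hy).resolve_left h)
    linarith
  have hz12 : (x, y) ∈ D1 ∪ D2 := by
    by_contra h
    have e1 := hpos h12 hD12n _ h
    have e2 := hzero _ hz0
    linarith
  rcases hz12 with h | h
  · have hz : (x, y) ∈ P := Or.inl ⟨hz0, h⟩
    have e1 := hzero _ hz
    have e2 := hpos hQc hQn _ (hPQ _ hz)
    linarith
  · have hz : (x, y) ∈ Q := Or.inl ⟨hz0, h⟩
    have e1 := hzero _ hz
    have e2 := hpos hPc hPn _ (fun h' => hPQ _ h' hz)
    linarith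

/-- maps to the interval with decreasing kernels which separate points -/
structure Sys (P : Type) [TopologicalSpace P] where
  p : ℕ → P → I
  cont : ∀ n, Continuous (p n)
  mono : ∀ {k n : ℕ}, k ≤ n → ∀ {x y : P}, p n x = p n y → p k x = p k y
  sep : ∀ {x y : P}, (∀ n, p n x = p n y) → x = y
  zero : ∃ x, p 0 x = 0
  one : ∃ x, p 0 x = 1

variable {P : Type} [TopologicalSpace P] [CompactSpace P] [T2Space P]

/-- eventually the images of sets with empty intersection have empty intersection -/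
theorem eventually_disj (S : Sys P) (C0 C1 C2 : Set (P × P)) (h0 : IsClosed C0) (h1 : IsClosed C1)
    (h2 : IsClosed C2) (h : ∀ z, z ∈ C0 → z ∈ C1 → z ∈ C2 → False) :
    ∃ n, ∀ z0 ∈ C0, ∀ z1 ∈ C1, ∀ z2 ∈ C2, S.p n z0.1 = S.p n z1.1 → S.p n z0.2 = S.p n z1.2 →
      S.p n z0.1 = S.p n z2.1 → S.p n z0.2 = S.p n z2.2 → False := by
  by_contra hcon
  push Not at hcon
  let K : ℕ → Set ((P × P) × (P × P) × (P × P)) := fun n =>
    {w | w.1 ∈ C0 ∧ w.2.1 ∈ C1 ∧ w.2.2 ∈ C2 ∧ S.p n w.1.1 = S.p n w.2.1.1 ∧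
      S.p n w.1.2 = S.p n w.2.1.2 ∧ S.p n w.1.1 = S.p n w.2.2.1 ∧ S.p n w.1.2 = S.p n w.2.2.2}
  have hcl : ∀ n, IsClosed (K n) := by
    intro n
    have c := S.cont n
    refine (h0.preimage continuous_fst).inter ((h1.preimage (by fun_prop)).inter
      ((h2.preimage (by fun_prop)).inter ((isClosed_eq (by fun_prop) (by fun_prop)).inter
      ((isClosed_eq (by fun_prop) (by fun_prop)).inter
      ((isClosed_eq (by fun_prop) (by fun_prop)).inter
      (isClosed_eq (by fun_prop) (by fun_prop)))))))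
  have hanti : ∀ m n, m ≤ n → K n ⊆ K m := by
    rintro m n hmn w ⟨a1, a2, a3, a4, a5, a6, a7⟩
    exact ⟨a1, a2, a3, S.mono hmn a4, S.mono hmn a5, S.mono hmn a6, S.mono hmn a7⟩
  obtain ⟨w, hw⟩ := IsCompact.nonempty_iInter_of_directed_nonempty_isCompact_isClosed K
    (fun i j => ⟨max i j, hanti _ _ (le_max_left _ _), hanti _ _ (le_max_right _ _)⟩)
    (fun n => by
      obtain ⟨z0, hz0, z1, hz1, z2, hz2, e1, e2, e3, e4, -⟩ := hcon n
      exact ⟨(z0, z1, z2), hz0, hz1, hz2, e1, e2, e3, e4⟩)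
    (fun n => (hcl n).isCompact) hcl
  have hw' : ∀ n, w ∈ K n := fun n => mem_iInter.1 hw n
  have e1 : w.1.1 = w.2.1.1 := S.sep fun n => (hw' n).2.2.2.1
  have e2 : w.1.2 = w.2.1.2 := S.sep fun n => (hw' n).2.2.2.2.1
  have e3 : w.1.1 = w.2.2.1 := S.sep fun n => (hw' n).2.2.2.2.2.1
  have e4 : w.1.2 = w.2.2.2 := S.sep fun n => (hw' n).2.2.2.2.2.2
  have f1 : w.1 = w.2.1 := Prod.ext e1 e2
  have f2 : w.1 = w.2.2 := Prod.ext e3 e4
  refine h w.1 (hw' 0).1 ?_ ?_
  · rw [f1]; exact (hw' 0).2.1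
  · rw [f2]; exact (hw' 0).2.2.1

/-- The product is not one-dimensional -/
theorem not_dim_one [ConnectedSpace P] (S : Sys P) :
    ¬ (∀ (k : ℕ) (U : Fin k → Set (P × P)), (∀ i, IsOpen (U i)) → (⋃ i, U i) = Set.univ →
        ∃ V : Fin k → Set (P × P), (∀ i, IsOpen (V i)) ∧ (∀ i, V i ⊆ U i) ∧
          (⋃ i, V i) = Set.univ ∧
          ∀ x : P × P, Set.ncard {i : Fin k | x ∈ V i} ≤ 1 + 1) := by
  intro hall
  have c0 := S.cont 0
  let U0 : Set (P × P) := {z | (S.p 0 z.1 : ℝ) < 2 / 3}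
  let U1 : Set (P × P) := {z | (1 : ℝ) / 3 < S.p 0 z.1 ∧ (S.p 0 z.2 : ℝ) < 2 / 3}
  let U2 : Set (P × P) := {z | (1 : ℝ) / 3 < S.p 0 z.1 ∧ (1 : ℝ) / 3 < S.p 0 z.2}
  have k1 : Continuous fun z : P × P => (S.p 0 z.1 : ℝ) := by fun_prop
  have k2 : Continuous fun z : P × P => (S.p 0 z.2 : ℝ) := by fun_prop
  have o0 : IsOpen U0 := isOpen_lt k1 continuous_const
  have o1 : IsOpen U1 := by
    have := (isOpen_lt (continuous_const (y := (1 : ℝ) / 3)) k1).inter
      (isOpen_lt k2 (continuous_const (y := (2 : ℝ) / 3)))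
    exact this
  have o2 : IsOpen U2 := by
    have := (isOpen_lt (continuous_const (y := (1 : ℝ) / 3)) k1).inter
      (isOpen_lt (continuous_const (y := (1 : ℝ) / 3)) k2)
    exact this
  obtain ⟨V, hVo, hVU, hVc, hVn⟩ := hall 3 ![U0, U1, U2]
    (by intro i; fin_cases i <;> assumption)
    (by
      apply eq_univ_of_forall
      intro z
      rw [mem_iUnion]
      by_cases h : (S.p 0 z.1 : ℝ) < 2 / 3
      · exact ⟨0, h⟩
      · push Not at h
        by_cases h' : (S.p 0 z.2 : ℝ) < 2 / 3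
        · exact ⟨1, show (1 : ℝ) / 3 < _ by linarith, h'⟩
        · push Not at h'
          exact ⟨2, show (1 : ℝ) / 3 < _ by linarith, show (1 : ℝ) / 3 < _ by linarith⟩)
  obtain ⟨C, hCc, hCcl, hCV⟩ := exists_iUnion_eq_closed_subset (X := P × P) (u := V)
    hVo (fun x => Set.toFinite _) hVc
  have hno : ∀ z, z ∈ C 0 → z ∈ C 1 → z ∈ C 2 → False := by
    intro z z0 z1 z2
    have h := hVn z
    have : {i : Fin 3 | z ∈ V i} = Set.univ := by
      apply eq_univ_of_forall
      intro i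
      fin_cases i
      · exact hCV 0 z0
      · exact hCV 1 z1
      · exact hCV 2 z2
    rw [this, Set.ncard_univ, Nat.card_eq_fintype_card, Fintype.card_fin] at h
    omega
  obtain ⟨n, hn⟩ := eventually_disj S (C 0) (C 1) (C 2) (hCcl 0) (hCcl 1) (hCcl 2) hno
  obtain ⟨a, ha⟩ := S.zero
  obtain ⟨b, hb⟩ := S.one
  have cn := S.cont n
  set α : ℝ := (S.p n a : ℝ) with hα
  set β : ℝ := (S.p n b : ℝ) with hβ
  -- the parametrisation
  let sg : ℝ → ℝ := fun t => (1 - t) * α + t * β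
  have hsg : Continuous sg := by fun_prop
  let F : P × P → ℝ × ℝ := fun z => ((S.p n z.1 : ℝ), (S.p n z.2 : ℝ))
  have hF : Continuous F := by fun_prop
  let D : Fin 3 → Set (ℝ × ℝ) := fun i => {t | (sg t.1, sg t.2) ∈ F '' (C i)}
  have hDcl : ∀ i, IsClosed (D i) := by
    intro i
    have : IsClosed (F '' (C i)) := ((hCcl i).isCompact.image hF).isClosed
    exact this.preimage (by fun_prop)
  have hsurj : ∀ t ∈ Icc (0 : ℝ) 1, ∃ x : P, (S.p n x : ℝ) = sg t := by
    intro t ht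
    have h1 : ((fun x : P => (S.p n x : ℝ)) '' univ).OrdConnected :=
      (isPreconnected_univ.image _ (by fun_prop)).ordConnected
    have h2 : sg t ∈ uIcc α β := by
      rw [← segment_eq_uIcc]
      exact ⟨1 - t, t, by linarith [ht.2], ht.1, by ring, rfl⟩
    obtain ⟨x, -, hx⟩ := h1.uIcc_subset ⟨a, mem_univ _, rfl⟩ ⟨b, mem_univ _, rfl⟩ h2
    exact ⟨x, hx⟩
  have hval : ∀ {x y : P}, (S.p n x : ℝ) = S.p n y → S.p 0 x = S.p 0 y := fun {x y} h =>
    S.mono (Nat.zero_le n) (Subtype.ext h)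
  obtain ⟨t, ht0, ht1, ht2⟩ := square3 (D 0) (D 1) (D 2) (hDcl 0) (hDcl 1) (hDcl 2)
    (by
      intro x hx y hy
      obtain ⟨p, hp⟩ := hsurj x hx
      obtain ⟨q, hq⟩ := hsurj y hy
      have : (p, q) ∈ ⋃ i, C i := by rw [hCc]; trivial
      obtain ⟨i, hi⟩ := mem_iUnion.1 this
      have hmem : ∀ i, (p, q) ∈ C i → (x, y) ∈ D i := by
        intro i hi
        exact ⟨(p, q), hi, Prod.ext hp hq⟩
      fin_cases i
      · exact Or.inl (hmem 0 hi)
      · exact Or.inr (Or.inl (hmem 1 hi))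
      · exact Or.inr (Or.inr (hmem 2 hi)))
    (by
      rintro y ⟨z, hz, hz'⟩
      have e1 : (S.p n z.1 : ℝ) = S.p n b := by
        have := congrArg Prod.fst hz'
        simp only [F, sg] at this
        rw [this]; simp [hβ]
      have e2 := hval e1
      have e3 : (S.p 0 z.1 : ℝ) < 2 / 3 := hVU 0 (hCV 0 hz)
      rw [e2, hb] at e3
      norm_num at e3)
    (by
      have key : ∀ {y : ℝ} {z : P × P}, F z = (sg 0, sg y) → (1 : ℝ) / 3 < S.p 0 z.1 → False := by
        intro y z hz' h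
        have e1 : (S.p n z.1 : ℝ) = S.p n a := by
          have := congrArg Prod.fst hz'
          simp only [F, sg] at this
          rw [this]; simp [hα]
        have e2 := hval e1
        rw [e2, ha] at h
        norm_num at h
      rintro y (⟨z, hz, hz'⟩ | ⟨z, hz, hz'⟩)
      · exact key hz' (hVU 1 (hCV 1 hz)).1
      · exact key hz' (hVU 2 (hCV 2 hz)).1)
    (by
      rintro x ⟨z, hz, hz'⟩
      have e1 : (S.p n z.2 : ℝ) = S.p n b := by
        have := congrArg Prod.snd hz'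
        simp only [F, sg] at this
        rw [this]; simp [hβ]
      have e2 := hval e1
      have e3 : (S.p 0 z.2 : ℝ) < 2 / 3 := (hVU 1 (hCV 1 hz)).2
      rw [e2, hb] at e3
      norm_num at e3)
    (by
      rintro x ⟨z, hz, hz'⟩
      have e1 : (S.p n z.2 : ℝ) = S.p n a := by
        have := congrArg Prod.snd hz'
        simp only [F, sg] at this
        rw [this]; simp [hα]
      have e2 := hval e1
      have e3 : (1 : ℝ) / 3 < S.p 0 z.2 := (hVU 2 (hCV 2 hz)).2
      rw [e2, ha] at e3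
      norm_num at e3)
  obtain ⟨z0, hz0, hz0'⟩ := ht0
  obtain ⟨z1, hz1, hz1'⟩ := ht1
  obtain ⟨z2, hz2, hz2'⟩ := ht2
  refine hn z0 hz0 z1 hz1 z2 hz2 ?_ ?_ ?_ ?_
  · exact Subtype.ext (congrArg Prod.fst (hz0'.trans hz1'.symm))
  · exact Subtype.ext (congrArg Prod.snd (hz0'.trans hz1'.symm))
  · exact Subtype.ext (congrArg Prod.fst (hz0'.trans hz2'.symm))
  · exact Subtype.ext (congrArg Prod.snd (hz0'.trans hz2'.symm))

end Pool.Agent.Helper531.PP
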