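import Pool.Agent.Helper531.PP.Main

set_option autoImplicit false
set_option linter.unusedSectionVars false

open Set Filter Topology unitInterval

namespace Pool.Agent.Helper531.PP

/-- nested closed relations which get fine define a homeomorphism -/
theorem homeo_of_nested {X Y : Type} [MetricSpace X] [MetricSpace Y] [CompactSpace X]
    [CompactSpace Y] (R : ℕ → Set (X × Y)) (hcl : ∀ n, IsClosed (R n))
    (hanti : ∀ n, R (n + 1) ⊆ R n)
    (hX : ∀ n x, ∃ y, (x, y) ∈ R n) (hY : ∀ n y, ∃ x, (x, y) ∈ R n)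
    (uX : ∀ ε > 0, ∃ n, ∀ x x' y, (x, y) ∈ R n → (x', y) ∈ R n → dist x x' < ε)
    (uY : ∀ ε > 0, ∃ n, ∀ x y y', (x, y) ∈ R n → (x, y') ∈ R n → dist y y' < ε)
    (x0 : X) (y0 : Y) (h0 : ∀ n, (x0, y0) ∈ R n) : ∃ h : X ≃ₜ Y, h x0 = y0 := by
  have hanti' : Antitone R := antitone_nat_of_succ_le hanti
  let T : Set (X × Y) := ⋂ n, R n
  have hT : IsClosed T := isClosed_iInter hcl
  have : CompactSpace T := isCompact_iff_compactSpace.mp hT.isCompact
  have sX : ∀ x, ∃ y, (x, y) ∈ T := by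
    intro x
    obtain ⟨y, hy⟩ := IsCompact.nonempty_iInter_of_directed_nonempty_isCompact_isClosed
      (fun n => {y : Y | (x, y) ∈ R n})
      (fun i j => ⟨max i j, fun y hy => hanti' (le_max_left _ _) hy,
        fun y hy => hanti' (le_max_right _ _) hy⟩)
      (fun n => hX n x)
      (fun n => ((hcl n).preimage (by fun_prop : Continuous fun y : Y => (x, y))).isCompact)
      (fun n => (hcl n).preimage (by fun_prop : Continuous fun y : Y => (x, y)))
    exact ⟨y, mem_iInter.2 fun n => mem_iInter.1 hy n⟩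
  have sY : ∀ y, ∃ x, (x, y) ∈ T := by
    intro y
    obtain ⟨x, hx⟩ := IsCompact.nonempty_iInter_of_directed_nonempty_isCompact_isClosed
      (fun n => {x : X | (x, y) ∈ R n})
      (fun i j => ⟨max i j, fun y hy => hanti' (le_max_left _ _) hy,
        fun y hy => hanti' (le_max_right _ _) hy⟩)
      (fun n => hY n y)
      (fun n => ((hcl n).preimage (by fun_prop : Continuous fun x : X => (x, y))).isCompact)
      (fun n => (hcl n).preimage (by fun_prop : Continuous fun x : X => (x, y)))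
    exact ⟨x, mem_iInter.2 fun n => mem_iInter.1 hx n⟩
  have bX : Function.Bijective fun t : T => t.1.1 := by
    constructor
    · rintro ⟨⟨x, y⟩, h⟩ ⟨⟨x', y'⟩, h'⟩ hxx
      have hxx' : x = x' := hxx
      subst hxx'
      have : y = y' := by
        by_contra hne
        obtain ⟨n, hn⟩ := uY (dist y y') (dist_pos.2 hne)
        exact lt_irrefl _ (hn x y y' (mem_iInter.1 h n) (mem_iInter.1 h' n))
      subst this
      rfl
    · intro x
      obtain ⟨y, hy⟩ := sX x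
      exact ⟨⟨(x, y), hy⟩, rfl⟩
  have bY : Function.Bijective fun t : T => t.1.2 := by
    constructor
    · rintro ⟨⟨x, y⟩, h⟩ ⟨⟨x', y'⟩, h'⟩ hyy
      have hyy' : y = y' := hyy
      subst hyy'
      have : x = x' := by
        by_contra hne
        obtain ⟨n, hn⟩ := uX (dist x x') (dist_pos.2 hne)
        exact lt_irrefl _ (hn x x' y (mem_iInter.1 h n) (mem_iInter.1 h' n))
      subst this
      rfl
    · intro y
      obtain ⟨x, hx⟩ := sY y
      exact ⟨⟨(x, y), hx⟩, rfl⟩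
  have cX : Continuous fun t : T => t.1.1 := by fun_prop
  have cY : Continuous fun t : T => t.1.2 := by fun_prop
  let eX : T ≃ₜ X := Continuous.homeoOfEquivCompactToT2 (f := Equiv.ofBijective _ bX) cX
  let eY : T ≃ₜ Y := Continuous.homeoOfEquivCompactToT2 (f := Equiv.ofBijective _ bY) cY
  refine ⟨eX.symm.trans eY, ?_⟩
  have hmem : (x0, y0) ∈ T := mem_iInter.2 h0
  have h1 : eX.symm x0 = ⟨(x0, y0), hmem⟩ := by
    rw [Homeomorph.symm_apply_eq]
    rfl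
  show eY (eX.symm x0) = y0
  rw [h1]
  rfl

variable {X Y : Type} [MetricSpace X] [MetricSpace Y]

/-- block (A) for the point `x0` -/
def GoodA (X : Type) [MetricSpace X] (x0 : X) : Prop :=
  ∀ φ : X → ℝ, Continuous φ → range φ = Icc 0 1 → φ x0 = 0 → ∀ k : ℝ → ℝ,
    ContinuousOn k (Icc 0 1) → k '' Icc 0 1 = Icc 0 1 → k 0 = 0 → ∀ ε : ℝ, 0 < ε →
    ∃ ψ : X → ℝ, Continuous ψ ∧ range ψ = Icc 0 1 ∧ ψ x0 = 0 ∧ ∀ p, |k (ψ p) - φ p| < ε

/-- arbitrarily fine maps with `x0` at the end point -/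
def GoodE (X : Type) [MetricSpace X] (x0 : X) : Prop :=
  ∀ ε : ℝ, 0 < ε → ∃ ψ : X → ℝ, Continuous ψ ∧ range ψ = Icc 0 1 ∧ ψ x0 = 0 ∧
    ∃ γ > 0, ∀ p q, |ψ p - ψ q| ≤ γ → dist p q < ε

/-- a map of the interval nearly factoring `φ` through a fine map `φ'` -/
theorem exists_k {x0 : X} {φ φ' : X → ℝ} (hr : range φ = Icc 0 1) (hr' : range φ' = Icc 0 1)
    (h0 : φ x0 = 0) (h0' : φ' x0 = 0) {ε γ : ℝ} (hε : 0 < ε) (hε1 : ε < 1) (hγ : 0 < γ)
    (h : ∀ p q, |φ' p - φ' q| ≤ γ → |φ p - φ q| < ε) :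
    ∃ k : ℝ → ℝ, Continuous k ∧ k '' Icc 0 1 = Icc 0 1 ∧ k 0 = 0 ∧
      ∀ p, |k (φ' p) - φ p| ≤ 2 * ε := by
  have hφ0 : ∀ p, 0 ≤ φ p := fun p => (hr ▸ mem_range_self p : φ p ∈ Icc (0 : ℝ) 1).1
  have hφ1 : ∀ p, φ p ≤ 1 := fun p => (hr ▸ mem_range_self p : φ p ∈ Icc (0 : ℝ) 1).2
  have : Nonempty X := ⟨x0⟩
  let L : ℝ := 1 / γ
  have hL : 0 < L := by positivity
  let k0 : ℝ → ℝ := fun t => ⨅ q, (φ q + L * |t - φ' q|)
  have hbdd : ∀ t, BddBelow (range fun q => φ q + L * |t - φ' q|) := by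
    intro t
    refine ⟨0, ?_⟩
    rintro _ ⟨q, rfl⟩
    have := hφ0 q
    positivity
  have k0le : ∀ t q, k0 t ≤ φ q + L * |t - φ' q| := fun t q => ciInf_le (hbdd t) q
  have lek0 : ∀ t c, (∀ q, c ≤ φ q + L * |t - φ' q|) → c ≤ k0 t := fun t c hc => le_ciInf hc
  have hlip : ∀ s t, k0 s ≤ k0 t + L * |s - t| := by
    intro s t
    have h1 : k0 s - L * |s - t| ≤ k0 t := by
      apply lek0
      intro q
      have h2 := k0le s q
      have h3 : |s - φ' q| ≤ |s - t| + |t - φ' q| := abs_sub_le _ _ _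
      have h4 := mul_le_mul_of_nonneg_left h3 hL.le
      linarith
    linarith
  have hk0c : Continuous k0 := by
    have : LipschitzWith ⟨L, hL.le⟩ k0 := by
      apply LipschitzWith.of_dist_le_mul
      intro s t
      rw [Real.dist_eq, Real.dist_eq, abs_le]
      have e1 := hlip s t
      have e2 := hlip t s
      rw [abs_sub_comm t s] at e2
      show -(L * |s - t|) ≤ _ ∧ _ ≤ L * |s - t|
      constructor <;> linarith
    exact this.continuous
  have hk0nn : ∀ t, 0 ≤ k0 t := by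
    intro t
    apply lek0
    intro q
    have := hφ0 q
    positivity
  have hk00 : k0 0 = 0 := by
    apply le_antisymm _ (hk0nn 0)
    have := k0le 0 x0
    rw [h0, h0'] at this
    simpa using this
  have hup : ∀ p, k0 (φ' p) ≤ φ p := by
    intro p
    have := k0le (φ' p) p
    simpa using this
  have hlow : ∀ p, φ p - ε ≤ k0 (φ' p) := by
    intro p
    apply lek0
    intro q
    rcases le_or_gt |φ' p - φ' q| γ with hc | hc
    · have h1 := h p q hc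
      have h2 := abs_lt.1 h1
      have h3 : 0 ≤ L * |φ' p - φ' q| := by positivity
      linarith
    · have h1 : 1 < L * |φ' p - φ' q| := by
        have : 1 = L * γ := by simp only [L]; field_simp
        rw [this]
        exact mul_lt_mul_of_pos_left hc hL
      linarith [hφ0 q, hφ1 p]
  -- the maximum
  obtain ⟨tm, htm, hmax⟩ := isCompact_Icc.exists_isMaxOn (nonempty_Icc.2 (zero_le_one' ℝ))
    hk0c.continuousOn
  set M := k0 tm with hM
  have hM1 : M ≤ 1 := by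
    have : tm ∈ range φ' := hr' ▸ htm
    obtain ⟨p, hp⟩ := this
    rw [hM, ← hp]
    exact (hup p).trans (hφ1 p)
  have hM2 : 1 - ε ≤ M := by
    have : (1 : ℝ) ∈ range φ := hr ▸ (right_mem_Icc.2 zero_le_one)
    obtain ⟨p, hp⟩ := this
    have h1 := hlow p
    rw [hp] at h1
    have h2 : k0 (φ' p) ≤ M := hmax (show φ' p ∈ Icc (0 : ℝ) 1 from hr' ▸ mem_range_self p)
    linarith
  have hMpos : 0 < M := by linarith
  refine ⟨fun t => k0 t / M, hk0c.div_const M, ?_, by simp [hk00], ?_⟩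
  · apply Subset.antisymm
    · rintro _ ⟨t, ht, rfl⟩
      refine ⟨div_nonneg (hk0nn t) hMpos.le, ?_⟩
      rw [div_le_one hMpos]
      exact hmax ht
    · have hcon : IsPreconnected ((fun t => k0 t / M) '' Icc (0 : ℝ) 1) :=
        isPreconnected_Icc.image _ (hk0c.div_const M).continuousOn
      have h1 : (0 : ℝ) ∈ (fun t => k0 t / M) '' Icc (0 : ℝ) 1 :=
        ⟨0, left_mem_Icc.2 zero_le_one, by simp [hk00]⟩
      have h2 : (1 : ℝ) ∈ (fun t => k0 t / M) '' Icc (0 : ℝ) 1 :=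
        ⟨tm, htm, by show k0 tm / M = 1; rw [← hM]; exact div_self hMpos.ne'⟩
      exact hcon.ordConnected.out h1 h2
  · intro p
    have h1 := hup p
    have h2 := hlow p
    have h3 : k0 (φ' p) ≤ M := hmax (show φ' p ∈ Icc (0 : ℝ) 1 from hr' ▸ mem_range_self p)
    have h4 : k0 (φ' p) ≤ k0 (φ' p) / M := by
      rw [le_div_iff₀ hMpos]
      have := mul_le_mul_of_nonneg_left hM1 (hk0nn (φ' p))
      linarith
    have h5 : k0 (φ' p) / M ≤ k0 (φ' p) + ε := by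
      rw [div_le_iff₀ hMpos]
      have h6 := hk0nn (φ' p)
      nlinarith [mul_nonneg h6 (by linarith : (0 : ℝ) ≤ M - (1 - ε)), mul_nonneg hε.le
        (by linarith : (0 : ℝ) ≤ M - k0 (φ' p))]
    show |k0 (φ' p) / M - φ p| ≤ 2 * ε
    rw [abs_le]
    constructor <;> linarith

/-- state of the ladder -/
structure Stt (X Y : Type) [MetricSpace X] [MetricSpace Y] (x0 : X) (y0 : Y) where
  φ : X → ℝ
  ψ : Y → ℝ
  η : ℝ
  cφ : Continuous φ
  cψ : Continuous ψ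
  rφ : range φ = Icc 0 1
  rψ : range ψ = Icc 0 1
  zφ : φ x0 = 0
  zψ : ψ y0 = 0
  hη : 0 < η

/-- the relation of a state -/
def Stt.R {x0 : X} {y0 : Y} (s : Stt X Y x0 y0) : Set (X × Y) := {z | |s.φ z.1 - s.ψ z.2| ≤ s.η}

def Stt.swap {x0 : X} {y0 : Y} (s : Stt X Y x0 y0) : Stt Y X y0 x0 :=
  ⟨s.ψ, s.φ, s.η, s.cψ, s.cφ, s.rψ, s.rφ, s.zψ, s.zφ, s.hη⟩

theorem stepX [CompactSpace X] {x0 : X} {y0 : Y} (hE : GoodE X x0) (hA : GoodA Y y0)
    (s : Stt X Y x0 y0) {ε : ℝ} (hε : 0 < ε) :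
    ∃ s' : Stt X Y x0 y0, s'.R ⊆ s.R ∧
      ∀ x x' y, (x, y) ∈ s'.R → (x', y) ∈ s'.R → dist x x' < ε := by
  obtain ⟨φ, ψ, η, cφ, cψ, rφ, rψ, zφ, zψ, hη⟩ := s
  set δ : ℝ := min (η / 8) (1 / 2) with hδ
  have hδ0 : 0 < δ := lt_min (by positivity) (by norm_num)
  have hδ1 : δ < 1 := lt_of_le_of_lt (min_le_right _ _) (by norm_num)
  have hδη : δ ≤ η / 8 := min_le_left _ _
  have hu := CompactSpace.uniformContinuous_of_continuous cφ
  rw [Metric.uniformContinuous_iff] at hu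
  obtain ⟨ρ, hρ, hρ2⟩ := hu δ hδ0
  obtain ⟨φ', cφ', rφ', zφ', γ, hγ, hfine⟩ := hE (min ε ρ) (lt_min hε hρ)
  obtain ⟨k, kc, kI, k0, hk⟩ := exists_k rφ rφ' zφ zφ' hδ0 hδ1 hγ (fun p q hpq => by
    have h1 := (hfine p q hpq).trans_le (min_le_right _ _)
    have h2 := hρ2 h1
    rwa [Real.dist_eq] at h2)
  obtain ⟨ψ', cψ', rψ', zψ', hψ'⟩ := hA ψ cψ rψ zψ k kc.continuousOn kI k0 (η / 4) (by positivity)
  have hku := isCompact_Icc.uniformContinuousOn_of_continuous (s := Icc (0 : ℝ) 1) kc.continuousOn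
  rw [Metric.uniformContinuousOn_iff] at hku
  obtain ⟨τ, hτ, hτ2⟩ := hku (η / 4) (by positivity)
  refine ⟨⟨φ', ψ', min (τ / 2) (γ / 2), cφ', cψ', rφ', rψ', zφ', zψ',
    lt_min (by positivity) (by positivity)⟩, ?_, ?_⟩
  · rintro ⟨p, q⟩ hpq
    have h1 : |φ' p - ψ' q| ≤ min (τ / 2) (γ / 2) := hpq
    have h2 : dist (φ' p) (ψ' q) < τ := by
      rw [Real.dist_eq]
      exact lt_of_le_of_lt (h1.trans (min_le_left _ _)) (by linarith)
    have h3 := hτ2 (φ' p) (rφ' ▸ mem_range_self p) (ψ' q) (rψ' ▸ mem_range_self q) h2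
    rw [Real.dist_eq] at h3
    have h4 := hk p
    have h5 := hψ' q
    show |φ p - ψ q| ≤ η
    rw [abs_le] at h4 ⊢
    rw [abs_lt] at h3 h5
    constructor <;> linarith [h3.1, h3.2, h4.1, h4.2, h5.1, h5.2]
  · intro x x' y h1 h2
    have h1' : |φ' x - ψ' y| ≤ min (τ / 2) (γ / 2) := h1
    have h2' : |φ' x' - ψ' y| ≤ min (τ / 2) (γ / 2) := h2
    have h3 := h1'.trans (min_le_right _ _)
    have h4 := h2'.trans (min_le_right _ _)
    refine (hfine x x' ?_).trans_le (min_le_left _ _)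
    rw [abs_le] at h3 h4 ⊢
    constructor <;> linarith [h3.1, h3.2, h4.1, h4.2]

theorem step [CompactSpace X] [CompactSpace Y] {x0 : X} {y0 : Y} (hEX : GoodE X x0)
    (hAX : GoodA X x0) (hEY : GoodE Y y0) (hAY : GoodA Y y0)
    (s : Stt X Y x0 y0) {ε : ℝ} (hε : 0 < ε) :
    ∃ s' : Stt X Y x0 y0, s'.R ⊆ s.R ∧
      (∀ x x' y, (x, y) ∈ s'.R → (x', y) ∈ s'.R → dist x x' < ε) ∧
      (∀ x y y', (x, y) ∈ s'.R → (x, y') ∈ s'.R → dist y y' < ε) := by
  obtain ⟨s1, h1, h2⟩ := stepX hEX hAY s hε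
  obtain ⟨s2, h3, h4⟩ := stepX hEY hAX s1.swap hε
  have hR : ∀ (x : X) (y : Y), (x, y) ∈ s2.swap.R ↔ (y, x) ∈ s2.R := by
    intro x y
    show |s2.ψ x - s2.φ y| ≤ s2.η ↔ |s2.φ y - s2.ψ x| ≤ s2.η
    rw [abs_sub_comm]
  have hR1 : ∀ (x : X) (y : Y), (y, x) ∈ s1.swap.R ↔ (x, y) ∈ s1.R := by
    intro x y
    show |s1.ψ y - s1.φ x| ≤ s1.η ↔ |s1.φ x - s1.ψ y| ≤ s1.η
    rw [abs_sub_comm]
  have hsub : ∀ (x : X) (y : Y), (x, y) ∈ s2.swap.R → (x, y) ∈ s1.R := by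
    intro x y h
    exact (hR1 x y).1 (h3 ((hR x y).1 h))
  refine ⟨s2.swap, ?_, ?_, ?_⟩
  · rintro ⟨x, y⟩ h
    exact h1 (hsub x y h)
  · intro x x' y h h'
    exact h2 x x' y (hsub _ _ h) (hsub _ _ h')
  · intro x y y' h h'
    exact h4 y y' x ((hR _ _).1 h) ((hR _ _).1 h')

/-- block (H) -/
theorem ladder [CompactSpace X] [CompactSpace Y] {x0 : X} {y0 : Y} (hEX : GoodE X x0)
    (hAX : GoodA X x0) (hEY : GoodE Y y0) (hAY : GoodA Y y0) :
    ∃ h : X ≃ₜ Y, h x0 = y0 := by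
  obtain ⟨φ, cφ, rφ, zφ, -⟩ := hEX 1 one_pos
  obtain ⟨ψ, cψ, rψ, zψ, -⟩ := hEY 1 one_pos
  let s0 : Stt X Y x0 y0 := ⟨φ, ψ, 1, cφ, cψ, rφ, rψ, zφ, zψ, one_pos⟩
  have hstep : ∀ (n : ℕ) (s : Stt X Y x0 y0), ∃ s' : Stt X Y x0 y0, s'.R ⊆ s.R ∧
      (∀ x x' y, (x, y) ∈ s'.R → (x', y) ∈ s'.R → dist x x' < 1 / ((n : ℝ) + 1)) ∧
      (∀ x y y', (x, y) ∈ s'.R → (x, y') ∈ s'.R → dist y y' < 1 / ((n : ℝ) + 1)) :=
    fun n s => step hEX hAX hEY hAY s (by positivity)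
  choose nx h1 h2 h3 using hstep
  let S : ℕ → Stt X Y x0 y0 := fun n => Nat.rec s0 (fun n s => nx n s) n
  have hS : ∀ n, S (n + 1) = nx n (S n) := fun n => rfl
  apply homeo_of_nested (fun n => (S n).R) _ _ _ _ _ _ x0 y0
  · intro n
    show |(S n).φ x0 - (S n).ψ y0| ≤ (S n).η
    rw [(S n).zφ, (S n).zψ, sub_zero, abs_zero]
    exact (S n).hη.le
  · intro n
    have c1 := (S n).cφ
    have c2 := (S n).cψ
    exact isClosed_le (by fun_prop) continuous_const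
  · intro n
    show (S (n + 1)).R ⊆ (S n).R
    rw [hS]
    exact h1 n (S n)
  · intro n x
    have : (S n).φ x ∈ range (S n).ψ := by
      rw [(S n).rψ, ← (S n).rφ]; exact mem_range_self x
    obtain ⟨y, hy⟩ := this
    refine ⟨y, ?_⟩
    show |(S n).φ x - (S n).ψ y| ≤ (S n).η
    rw [hy, sub_self, abs_zero]
    exact (S n).hη.le
  · intro n y
    have : (S n).ψ y ∈ range (S n).φ := by
      rw [(S n).rφ, ← (S n).rψ]; exact mem_range_self y
    obtain ⟨x, hx⟩ := this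
    refine ⟨x, ?_⟩
    show |(S n).φ x - (S n).ψ y| ≤ (S n).η
    rw [hx, sub_self, abs_zero]
    exact (S n).hη.le
  · intro ε hε
    obtain ⟨n, hn⟩ := exists_nat_one_div_lt hε
    refine ⟨n + 1, fun x x' y a b => ?_⟩
    rw [hS] at a b
    exact (h2 n (S n) x x' y a b).trans hn
  · intro ε hε
    obtain ⟨n, hn⟩ := exists_nat_one_div_lt hε
    refine ⟨n + 1, fun x y y' a b => ?_⟩
    rw [hS] at a b
    exact (h3 n (S n) x y y' a b).trans hn

end Pool.Agent.Helper531.PP
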