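import Pool.Agent.Helper531.PP.GE
import Pool.Agent.Helper737.FoldLift.Good

set_option autoImplicit false
set_option linter.unusedSectionVars false

open Set Filter Topology unitInterval
open Pool.Agent.Helper162.Arc

namespace Pool.Agent.Helper531.PP

/-- The pseudo-arc is homogeneous. -/
theorem homogeneous_PA : ∀ x y : PA, ∃ h : PA ≃ₜ PA, h x = y :=
  hom_of_goodA fun _ _ _ _ hHI x0 => Pool.Agent.Helper737.FoldLift.goodA hHI x0

/-- Uniqueness and homogeneity of hereditarily indecomposable arc-like continua. -/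
theorem unique_homogeneous {X Y : Type} [MetricSpace X] [CompactSpace X] [ConnectedSpace X]
    [MetricSpace Y] [CompactSpace Y] [ConnectedSpace Y]
    (hX : Pool.Agent.Helper162.Hom.HI X) (hY : Pool.Agent.Helper162.Hom.HI Y)
    {x : X} {y : Y} (eX : GoodE X x) (eY : GoodE Y y) : ∃ h : X ≃ₜ Y, h x = y :=
  ladder eX (Pool.Agent.Helper737.FoldLift.goodA hX x) eY
    (Pool.Agent.Helper737.FoldLift.goodA hY y)

end Pool.Agent.Helper531.PP
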