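import Pool.Agent.Helper531.PP.H
import Pool.Agent.Helper162.Hom.HIPA

set_option autoImplicit false
set_option linter.unusedSectionVars false

open Set Filter Topology unitInterval
open Pool.Agent.Helper162.Arc

namespace Pool.Agent.Helper531.PP

/-- coordinates are fine maps -/
theorem coord_fine {P : Type} [MetricSpace P] [CompactSpace P] (S : Sys P) {ε : ℝ} (hε : 0 < ε) :
    ∃ n, ∃ γ > (0 : ℝ), ∀ x y : P, |(S.p n x : ℝ) - S.p n y| ≤ γ → dist x y < ε := by
  let L : Set (P × P) := {q | ε ≤ dist q.1 q.2}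
  have hL : IsClosed L := isClosed_le continuous_const (by fun_prop)
  obtain ⟨n, hn⟩ : ∃ n, ∀ q ∈ L, S.p n q.1 ≠ S.p n q.2 := by
    by_contra hcon
    push Not at hcon
    let K : ℕ → Set (P × P) := fun n => L ∩ {q | S.p n q.1 = S.p n q.2}
    have hcl : ∀ n, IsClosed (K n) := by
      intro n
      have c := S.cont n
      exact hL.inter (isClosed_eq (by fun_prop) (by fun_prop))
    have hanti : ∀ a b, a ≤ b → K b ⊆ K a := by
      rintro a b hab q ⟨h1, h2⟩
      exact ⟨h1, S.mono hab h2⟩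
    obtain ⟨q, hq⟩ := IsCompact.nonempty_iInter_of_directed_nonempty_isCompact_isClosed K
      (fun i j => ⟨max i j, hanti _ _ (le_max_left _ _), hanti _ _ (le_max_right _ _)⟩)
      (fun n => by
        obtain ⟨q, h1, h2⟩ := hcon n
        exact ⟨q, h1, h2⟩)
      (fun n => (hcl n).isCompact) hcl
    have hq' : ∀ n, q ∈ K n := fun n => mem_iInter.1 hq n
    have h1 : q.1 = q.2 := S.sep fun n => (hq' n).2
    have h2 : ε ≤ dist q.1 q.2 := (hq' 0).1
    rw [h1, dist_self] at h2
    linarith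
  have c := S.cont n
  refine ⟨n, ?_⟩
  rcases L.eq_empty_or_nonempty with hLe | hLn
  · refine ⟨1, one_pos, ?_⟩
    intro x y _
    by_contra hcon
    push Not at hcon
    have : (x, y) ∈ L := hcon
    rw [hLe] at this
    exact this
  · have hm : Continuous fun q : P × P => |(S.p n q.1 : ℝ) - S.p n q.2| := by fun_prop
    obtain ⟨q0, hq0, hmin⟩ := hL.isCompact.exists_isMinOn hLn hm.continuousOn
    have hpos : 0 < |(S.p n q0.1 : ℝ) - S.p n q0.2| := by
      rw [abs_pos, sub_ne_zero]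
      exact fun h => hn q0 hq0 (Subtype.ext h)
    refine ⟨|(S.p n q0.1 : ℝ) - S.p n q0.2| / 2, by linarith, ?_⟩
    intro x y hxy
    by_contra hcon
    push Not at hcon
    have h1 : |(S.p n q0.1 : ℝ) - S.p n q0.2| ≤ |(S.p n x : ℝ) - S.p n y| :=
      hmin (show (x, y) ∈ L from hcon)
    linarith

/-- block (E) in the form used by the ladder -/
theorem goodE {P : Type} [MetricSpace P] [CompactSpace P] [ConnectedSpace P]
    (hHI : Pool.Agent.Helper162.Hom.HI P) (S : Sys P)
    (hs : ∀ n, Function.Surjective (S.p n)) (x0 : P) : GoodE P x0 := by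
  intro ε hε
  obtain ⟨n, γ, hγ, hfine⟩ := coord_fine S hε
  have c := S.cont n
  set d : ℝ := min (γ / 4) (1 / 4) with hd
  have hd0 : 0 < d := lt_min (by positivity) (by norm_num)
  have hd1 : d ≤ γ / 4 := min_le_left _ _
  have hd2 : d ≤ 1 / 4 := min_le_right _ _
  obtain ⟨ψ, s, cψ, cs, zψ, rψ, hψ⟩ := Pool.Agent.Helper162.Hom.endpt_range hHI
    (φ := fun z => (S.p n z : ℝ)) (by fun_prop) x0 hd0 (by
      obtain ⟨z, hz⟩ := hs n 1
      obtain ⟨w, hw⟩ := hs n 0
      refine ⟨z, w, ?_⟩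
      rw [hz, hw]
      show 2 * d < 1 - 0
      linarith)
  refine ⟨ψ, cψ, rψ, zψ, ?_⟩
  have hku := isCompact_Icc.uniformContinuousOn_of_continuous (s := Icc (0 : ℝ) 1) cs.continuousOn
  rw [Metric.uniformContinuousOn_iff] at hku
  obtain ⟨τ, hτ, hτ2⟩ := hku (γ / 4) (by positivity)
  refine ⟨τ / 2, by positivity, fun p q hpq => ?_⟩
  apply hfine
  have h1 := hτ2 (ψ p) (rψ ▸ mem_range_self p) (ψ q) (rψ ▸ mem_range_self q) (by
    rw [Real.dist_eq]; linarith)
  rw [Real.dist_eq] at h1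
  have h2 := hψ p
  have h3 := hψ q
  rw [abs_le] at h2 h3 ⊢
  rw [abs_lt] at h1
  constructor <;> linarith [h1.1, h1.2, h2.1, h2.2, h3.1, h3.2]

/-- homogeneity of the pseudo-arc from block (A) -/
theorem hom_of_goodA
    (hA : ∀ (P : Type) [MetricSpace P] [CompactSpace P] [ConnectedSpace P],
      Pool.Agent.Helper162.Hom.HI P → ∀ x0 : P, GoodA P x0) :
    ∀ x y : PA, ∃ h : PA ≃ₜ PA, h x = y := by
  intro x y
  letI : MetricSpace PA := TopologicalSpace.metrizableSpaceMetric PA
  have hHI : Pool.Agent.Helper162.Hom.HI PA := Pool.Agent.Helper162.Hom.hi_pa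
  exact ladder (X := PA) (Y := PA) (goodE hHI sysPA (fun n => coord_surj n) x) (hA PA hHI x)
    (goodE hHI sysPA (fun n => coord_surj n) y) (hA PA hHI y)

end Pool.Agent.Helper531.PP
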