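import Pool.Agent.Helper531.PP.Shape

set_option autoImplicit false
set_option linter.unusedSectionVars false

open Set Filter Topology unitInterval
open Pool.Agent.Helper162.Arc

namespace Pool.Agent.Helper531.PP

lemma St_self (n : ℕ) (t : I) : St n n t = t := by
  cases n with
  | zero => rfl
  | succ n =>
    have h2 : St (n + 1) (n + 1) = ContinuousMap.id I := by
      show (if n + 1 ≤ n then (St n (n + 1)).comp (nxt n (St n)) else ContinuousMap.id I) = _
      rw [if_neg (by omega)]
    rw [h2]; rfl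

lemma St_succ {n j : ℕ} (hj : j ≤ n) (t : I) : St (n + 1) j t = St n j (bond n t) := by
  have h2 : St (n + 1) j = (St n j).comp (nxt n (St n)) := by
    show (if j ≤ n then (St n j).comp (nxt n (St n)) else ContinuousMap.id I) = _
    rw [if_pos hj]
  rw [h2]; rfl

lemma bond_St (n : ℕ) : ∀ (k : ℕ), k < n → ∀ t : I, bond k (St n (k + 1) t) = St n k t := by
  induction n with
  | zero => intro k hk; omega
  | succ n ih =>
    intro k hk t
    rcases Nat.lt_succ_iff_lt_or_eq.1 hk with h | h
    · rw [St_succ (by omega), St_succ (by omega)]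
      exact ih k h _
    · subst h
      rw [St_self, St_succ le_rfl, St_self]

/-- every coordinate projection is onto -/
lemma coord_surj (n : ℕ) : Function.Surjective fun x : PA => x.1 n := by
  intro t
  obtain ⟨y, hy, hy0⟩ := exists_mem_Lim (fun k => bond (n + k)) (fun k => bond_surj (n + k)) t
  refine ⟨⟨fun k => if k ≤ n then St n k t else y (k - n), ?_⟩, ?_⟩
  · intro k
    show bond k (if k + 1 ≤ n then St n (k + 1) t else y (k + 1 - n)) =
      (if k ≤ n then St n k t else y (k - n))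
    rcases lt_trichotomy k n with h | h | h
    · rw [if_pos (by omega), if_pos (by omega)]
      exact bond_St n k h t
    · subst h
      rw [if_neg (by omega), if_pos le_rfl, St_self]
      have h1 := hy 0
      rw [hy0] at h1
      have h2 : k + 1 - k = 0 + 1 := by omega
      rw [h2]
      exact h1
    · rw [if_neg (by omega), if_neg (by omega)]
      have h1 := hy (k - n)
      have h2 : n + (k - n) = k := by omega
      have h3 : k + 1 - n = k - n + 1 := by omega
      rw [h3]
      simp only [h2] at h1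
      exact h1
  · show (if n ≤ n then St n n t else y (n - n)) = t
    rw [if_pos le_rfl, St_self]

/-- the coordinate system of the pseudo-arc -/
noncomputable def sysPA : Sys PA where
  p := fun n x => x.1 n
  cont := fun n => continuous_coord n
  mono := fun {k n} hkn {x y} h => coord_le x.2 y.2 hkn h
  sep := fun {x y} h => Subtype.ext (funext h)
  zero := coord_surj 0 0
  one := coord_surj 0 1

theorem final (hom : ∀ x y : PA, ∃ h : PA ≃ₜ PA, h x = y) :
    ¬ (∀ (X : Type) [MetricSpace X] [CompactSpace X] [ConnectedSpace X] [Nontrivial X],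
    (∀ x y : X, ∃ h : X ≃ₜ X, h x = y) →
    (∃ n : ℕ, ∀ (k : ℕ) (U : Fin k → Set X), (∀ i, IsOpen (U i)) → (⋃ i, U i) = Set.univ →
        ∃ V : Fin k → Set X, (∀ i, IsOpen (V i)) ∧ (∀ i, V i ⊆ U i) ∧ (⋃ i, V i) = Set.univ ∧
          ∀ x : X, Set.ncard {i : Fin k | x ∈ V i} ≤ n + 1) →
    (∃ e : X → (ℕ → unitInterval), Topology.IsEmbedding e ∧
      ∀ U : Set (ℕ → unitInterval), IsOpen U → Set.range e ⊆ U →
        ∃ V : Set (ℕ → unitInterval), IsOpen V ∧ Set.range e ⊆ V ∧
          ∃ h : V ⊆ U, (ContinuousMap.inclusion h).Nullhomotopic) →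
    (∀ (k : ℕ) (U : Fin k → Set X), (∀ i, IsOpen (U i)) → (⋃ i, U i) = Set.univ →
        ∃ V : Fin k → Set X, (∀ i, IsOpen (V i)) ∧ (∀ i, V i ⊆ U i) ∧ (⋃ i, V i) = Set.univ ∧
          ∀ x : X, Set.ncard {i : Fin k | x ∈ V i} ≤ 1 + 1) ∧
    ¬ (∀ (k : ℕ) (U : Fin k → Set X), (∀ i, IsOpen (U i)) → (⋃ i, U i) = Set.univ →
        ∃ V : Fin k → Set X, (∀ i, IsOpen (V i)) ∧ (∀ i, V i ⊆ U i) ∧ (⋃ i, V i) = Set.univ ∧
          ∀ x : X, Set.ncard {i : Fin k | x ∈ V i} ≤ 0 + 1)) := by
  intro H
  letI : MetricSpace (PA × PA) := TopologicalSpace.metrizableSpaceMetric (PA × PA)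
  have h := H (PA × PA) ?_ ?_ ?_
  · exact not_dim_one sysPA h.1
  · rintro ⟨x1, x2⟩ ⟨y1, y2⟩
    obtain ⟨h1, e1⟩ := hom x1 y1
    obtain ⟨h2, e2⟩ := hom x2 y2
    exact ⟨h1.prodCongr h2, Prod.ext e1 e2⟩
  · exact ⟨3, fin_dim sysPA⟩
  · refine shape sysPA (fun n => coord_surj n) St ?_
    intro n k hk x
    exact St_coord x.2 n k hk

end Pool.Agent.Helper531.PP
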