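import Pool.Agent.Helper531.PP.Dim

set_option autoImplicit false
set_option linter.unusedSectionVars false

open Set Filter Topology unitInterval

namespace Pool.Agent.Helper531.PP

variable {P : Type} [TopologicalSpace P] [CompactSpace P] [T2Space P]

/-- uniform level of an open cover -/
theorem level (S : Sys P) {k : ℕ} (U : Fin k → Set (P × P)) (hU : ∀ i, IsOpen (U i))
    (hc : (⋃ i, U i) = Set.univ) :
    ∃ n, ∃ η > (0 : ℝ), ∀ z : P × P, ∃ i, ∀ w : P × P,
      |(S.p n z.1 : ℝ) - S.p n w.1| < η → |(S.p n z.2 : ℝ) - S.p n w.2| < η → w ∈ U i := by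
  let L : Set ((P × P) × (Fin k → P × P)) := {q | ∀ i, q.2 i ∉ U i}
  have hL : IsClosed L := by
    have : L = ⋂ i, {q | q.2 i ∈ (U i)ᶜ} := by
      ext q; simp [L]
    rw [this]
    exact isClosed_iInter fun i => (hU i).isClosed_compl.preimage (by fun_prop)
  let m : ℕ → ((P × P) × (Fin k → P × P)) → ℝ := fun n q =>
    ∑ i, (|(S.p n q.1.1 : ℝ) - S.p n (q.2 i).1| + |(S.p n q.1.2 : ℝ) - S.p n (q.2 i).2|)
  have hm : ∀ n, Continuous (m n) := by
    intro n
    have c := S.cont n
    fun_prop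
  have hm0 : ∀ n q, m n q = 0 → ∀ i, S.p n q.1.1 = S.p n (q.2 i).1 ∧
      S.p n q.1.2 = S.p n (q.2 i).2 := by
    intro n q h i
    have h1 := (Finset.sum_eq_zero_iff_of_nonneg (fun i _ => by positivity)).1 h i
      (Finset.mem_univ i)
    have h2 := abs_nonneg ((S.p n q.1.1 : ℝ) - S.p n (q.2 i).1)
    have h3 := abs_nonneg ((S.p n q.1.2 : ℝ) - S.p n (q.2 i).2)
    constructor
    · apply Subtype.ext
      have : |(S.p n q.1.1 : ℝ) - S.p n (q.2 i).1| = 0 := by linarith
      linarith [abs_eq_zero.1 this]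
    · apply Subtype.ext
      have : |(S.p n q.1.2 : ℝ) - S.p n (q.2 i).2| = 0 := by linarith
      linarith [abs_eq_zero.1 this]
  have hm1 : ∀ n q, (∀ i, S.p n q.1.1 = S.p n (q.2 i).1 ∧ S.p n q.1.2 = S.p n (q.2 i).2) →
      m n q = 0 := by
    intro n q h
    apply Finset.sum_eq_zero
    intro i _
    rw [(h i).1, (h i).2]
    simp
  obtain ⟨n, hn⟩ : ∃ n, ∀ q ∈ L, m n q ≠ 0 := by
    by_contra hcon
    push Not at hcon
    let K : ℕ → Set ((P × P) × (Fin k → P × P)) := fun n => L ∩ {q | m n q = 0}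
    have hcl : ∀ n, IsClosed (K n) := fun n => hL.inter (isClosed_eq (hm n) continuous_const)
    have hanti : ∀ a b, a ≤ b → K b ⊆ K a := by
      rintro a b hab q ⟨h1, h2⟩
      refine ⟨h1, hm1 a q fun i => ?_⟩
      have := hm0 b q h2 i
      exact ⟨S.mono hab this.1, S.mono hab this.2⟩
    obtain ⟨q, hq⟩ := IsCompact.nonempty_iInter_of_directed_nonempty_isCompact_isClosed K
      (fun i j => ⟨max i j, hanti _ _ (le_max_left _ _), hanti _ _ (le_max_right _ _)⟩)
      (fun n => by
        obtain ⟨q, h1, h2⟩ := hcon n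
        exact ⟨q, h1, h2⟩)
      (fun n => (hcl n).isCompact) hcl
    have hq' : ∀ n, q ∈ K n := fun n => mem_iInter.1 hq n
    have h1 : q.1 ∈ ⋃ i, U i := by rw [hc]; trivial
    obtain ⟨i, hi⟩ := mem_iUnion.1 h1
    have h2 : q.1 = q.2 i := by
      apply Prod.ext
      · exact S.sep fun n => (hm0 n q (hq' n).2 i).1
      · exact S.sep fun n => (hm0 n q (hq' n).2 i).2
    exact (hq' 0).1 i (h2 ▸ hi)
  refine ⟨n, ?_⟩
  rcases L.eq_empty_or_nonempty with hLe | hLn
  · refine ⟨1, one_pos, ?_⟩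
    intro z
    by_contra hcon
    push Not at hcon
    choose w _ _ hw using hcon
    have : (z, w) ∈ L := fun i => hw i
    rw [hLe] at this
    exact this
  · obtain ⟨q0, hq0, hmin⟩ := hL.isCompact.exists_isMinOn hLn (hm n).continuousOn
    have hpos : 0 < m n q0 := by
      have h1 : 0 ≤ m n q0 := Finset.sum_nonneg fun i _ => by positivity
      exact lt_of_le_of_ne h1 (Ne.symm (hn q0 hq0))
    refine ⟨m n q0 / (2 * k + 1), by positivity, ?_⟩
    intro z
    by_contra hcon
    push Not at hcon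
    choose w h1 h2 hw using hcon
    have h3 : m n q0 ≤ m n (z, w) := hmin (show (z, w) ∈ L from fun i => hw i)
    have h4 : m n (z, w) ≤ ∑ i : Fin k, (2 * (m n q0 / (2 * k + 1))) := by
      apply Finset.sum_le_sum
      intro i _
      have := h1 i
      have := h2 i
      linarith
    rw [Finset.sum_const, Finset.card_univ, Fintype.card_fin, nsmul_eq_mul] at h4
    have h5 : (k : ℝ) * (2 * (m n q0 / (2 * k + 1))) < m n q0 := by
      have hk : (0 : ℝ) < 2 * k + 1 := by positivity
      have : (k : ℝ) * (2 * (m n q0 / (2 * k + 1))) = m n q0 * ((2 * k) / (2 * k + 1)) := by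
        field_simp
      rw [this]
      have h6 : (2 * (k : ℝ)) / (2 * k + 1) < 1 := by
        rw [div_lt_one hk]; linarith
      calc m n q0 * ((2 * k) / (2 * k + 1)) < m n q0 * 1 := by
            exact mul_lt_mul_of_pos_left h6 hpos
        _ = m n q0 := mul_one _
    linarith

/-- integers near a real number -/
lemma near_subset (t : ℝ) : {a : ℤ | |t - a| < 1} ⊆ {⌊t⌋, ⌊t⌋ + 1} := by
  intro a ha
  have h := abs_lt.1 (show |t - a| < 1 from ha)
  have h1 := Int.floor_le t
  have h2 := Int.lt_floor_add_one t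
  have h3 : (a : ℝ) < ⌊t⌋ + 2 := by linarith [h.1]
  have h4 : ((⌊t⌋ : ℤ) : ℝ) < a + 1 := by linarith [h.2]
  have h5 : a < ⌊t⌋ + 2 := by exact_mod_cast h3
  have h6 : ⌊t⌋ < a + 1 := by exact_mod_cast h4
  simp only [mem_insert_iff, mem_singleton_iff]
  omega

/-- The product has dimension at most three (indeed two). -/
theorem fin_dim [Nonempty P] (S : Sys P) :
    ∀ (k : ℕ) (U : Fin k → Set (P × P)), (∀ i, IsOpen (U i)) → (⋃ i, U i) = Set.univ →
        ∃ V : Fin k → Set (P × P), (∀ i, IsOpen (V i)) ∧ (∀ i, V i ⊆ U i) ∧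
          (⋃ i, V i) = Set.univ ∧
          ∀ x : P × P, Set.ncard {i : Fin k | x ∈ V i} ≤ 3 + 1 := by
  intro k U hU hc
  obtain ⟨n, η, hη, h⟩ := level S U hU hc
  obtain ⟨N, hN⟩ := exists_nat_gt (2 / η)
  have hNpos : (0 : ℝ) < N := lt_trans (by positivity) hN
  have cn := S.cont n
  let cell : ℤ × ℤ → Set (P × P) := fun ab =>
    {z | |(N : ℝ) * S.p n z.1 - ab.1| < 1 ∧ |(N : ℝ) * S.p n z.2 - ab.2| < 1}
  have hcell : ∀ ab, IsOpen (cell ab) := by
    intro ab
    have k1 : Continuous fun z : P × P => |(N : ℝ) * S.p n z.1 - ab.1| := by fun_prop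
    have k2 : Continuous fun z : P × P => |(N : ℝ) * S.p n z.2 - ab.2| := by fun_prop
    exact (isOpen_lt k1 (continuous_const (y := (1 : ℝ)))).inter
      (isOpen_lt k2 (continuous_const (y := (1 : ℝ))))
  have hsmall : ∀ {s t : ℝ} {a : ℤ}, |(N : ℝ) * s - a| < 1 → |(N : ℝ) * t - a| < 1 →
      |s - t| < η := by
    intro s t a h1 h2
    have h1' := abs_lt.1 h1
    have h2' := abs_lt.1 h2
    have h3 : |(N : ℝ) * (s - t)| < 2 := by
      rw [abs_lt]; constructor <;> linarith [h1'.1, h1'.2, h2'.1, h2'.2]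
    rw [abs_mul, abs_of_pos hNpos] at h3
    have h4 : 2 < N * η := by
      rw [div_lt_iff₀ hη] at hN
      exact hN
    by_contra hcon
    push Not at hcon
    have := mul_le_mul_of_nonneg_left hcon hNpos.le
    linarith
  have hidx : ∀ ab, ∃ i, cell ab ⊆ U i := by
    intro ab
    rcases (cell ab).eq_empty_or_nonempty with he | ⟨z, hz⟩
    · obtain ⟨x⟩ := ‹Nonempty P›
      obtain ⟨i, -⟩ := h (x, x)
      exact ⟨i, by rw [he]; exact empty_subset _⟩
    · obtain ⟨i, hi⟩ := h z
      refine ⟨i, fun w hw => hi w ?_ ?_⟩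
      · exact hsmall hz.1 hw.1
      · exact hsmall hz.2 hw.2
  choose idx hidx using hidx
  refine ⟨fun i => ⋃ ab, ⋃ (_ : idx ab = i), cell ab, ?_, ?_, ?_, ?_⟩
  · intro i
    exact isOpen_iUnion fun ab => isOpen_iUnion fun _ => hcell ab
  · intro i
    apply iUnion_subset
    intro ab
    apply iUnion_subset
    intro hab
    rw [← hab]
    exact hidx ab
  · apply eq_univ_of_forall
    intro z
    rw [mem_iUnion]
    have hfl : ∀ t : ℝ, |t - ⌊t⌋| < 1 := by
      intro t
      rw [abs_of_nonneg (by linarith [Int.floor_le t])]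
      linarith [Int.lt_floor_add_one t]
    refine ⟨idx (⌊(N : ℝ) * S.p n z.1⌋, ⌊(N : ℝ) * S.p n z.2⌋), ?_⟩
    rw [mem_iUnion]
    refine ⟨(⌊(N : ℝ) * S.p n z.1⌋, ⌊(N : ℝ) * S.p n z.2⌋), ?_⟩
    rw [mem_iUnion]
    exact ⟨rfl, hfl _, hfl _⟩
  · intro x
    set s := (N : ℝ) * S.p n x.1
    set t := (N : ℝ) * S.p n x.2
    let F : Finset (ℤ × ℤ) := ({⌊s⌋, ⌊s⌋ + 1} : Finset ℤ) ×ˢ ({⌊t⌋, ⌊t⌋ + 1} : Finset ℤ)
    have hF : F.card ≤ 4 := by
      rw [Finset.card_product]
      have e1 := Finset.card_le_two (a := ⌊s⌋) (b := ⌊s⌋ + 1)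
      have e2 := Finset.card_le_two (a := ⌊t⌋) (b := ⌊t⌋ + 1)
      calc _ ≤ 2 * 2 := Nat.mul_le_mul e1 e2
        _ = 4 := rfl
    have hsub : {i : Fin k | x ∈ ⋃ ab, ⋃ (_ : idx ab = i), cell ab} ⊆ (F.image idx : Finset (Fin k)) := by
      intro i hi
      have hi' : x ∈ ⋃ ab, ⋃ (_ : idx ab = i), cell ab := hi
      rw [mem_iUnion] at hi'
      obtain ⟨ab, hab⟩ := hi'
      rw [mem_iUnion] at hab
      obtain ⟨h1, h2⟩ := hab
      rw [Finset.mem_coe, Finset.mem_image]
      refine ⟨ab, ?_, h1⟩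
      rw [Finset.mem_product]
      have e1 := near_subset s h2.1
      have e2 := near_subset t h2.2
      simp only [mem_insert_iff, mem_singleton_iff] at e1 e2
      constructor
      · simpa using e1
      · simpa using e2
    calc _ ≤ Set.ncard ((F.image idx : Finset (Fin k)) : Set (Fin k)) :=
          Set.ncard_le_ncard hsub (Finset.finite_toSet _)
      _ = (F.image idx).card := Set.ncard_coe_finset _
      _ ≤ F.card := Finset.card_image_le
      _ ≤ 3 + 1 := hF

/-- convex combinations in the unit interval -/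
def cc (x y t : I) : I :=
  ⟨(1 - (t : ℝ)) * x + t * y, by
    have h1 := t.2.1; have h2 := t.2.2; have h3 := x.2.1; have h4 := y.2.1
    have : (0 : ℝ) ≤ 1 - t := by linarith
    positivity, by
    have h1 := t.2.1; have h2 := t.2.2; have h3 := x.2.2; have h4 := y.2.2
    have h5 : (0 : ℝ) ≤ 1 - t := by linarith
    have e1 := mul_le_mul_of_nonneg_left h3 h5
    have e2 := mul_le_mul_of_nonneg_left h4 h1
    linarith⟩

lemma continuous_cc : Continuous fun q : I × I × I => cc q.1 q.2.1 q.2.2 := by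
  unfold cc
  fun_prop

lemma cc_zero (x y : I) : cc x y 0 = x := by
  apply Subtype.ext; simp [cc]

lemma cc_one (x y : I) : cc x y 1 = y := by
  apply Subtype.ext; simp [cc]

lemma cc_self (x t : I) : cc x x t = x := by
  apply Subtype.ext
  show (1 - (t : ℝ)) * x + t * x = x
  ring

/-- the product has trivial shape -/
theorem shape (S : Sys P) (hs : ∀ n, Function.Surjective (S.p n)) (B : ℕ → ℕ → C(I, I))
    (hB : ∀ n k, k ≤ n → ∀ x, B n k (S.p n x) = S.p k x) :
    ∃ e : P × P → (ℕ → unitInterval), Topology.IsEmbedding e ∧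
      ∀ U : Set (ℕ → unitInterval), IsOpen U → Set.range e ⊆ U →
        ∃ V : Set (ℕ → unitInterval), IsOpen V ∧ Set.range e ⊆ V ∧
          ∃ h : V ⊆ U, (ContinuousMap.inclusion h).Nullhomotopic := by
  let e : P × P → (ℕ → I) := fun z m => if m % 2 = 0 then S.p (m / 2) z.1 else S.p (m / 2) z.2
  have he : Continuous e := by
    apply continuous_pi
    intro m
    have c := S.cont (m / 2)
    by_cases h : m % 2 = 0
    · simp only [e, h, if_true]; fun_prop
    · simp only [e, h, if_false]; fun_prop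
  have hinj : Function.Injective e := by
    intro z w h
    apply Prod.ext
    · apply S.sep
      intro n
      have := congrFun h (2 * n)
      have h1 : (2 * n) % 2 = 0 := by omega
      have h2 : (2 * n) / 2 = n := by omega
      simp only [e, h1, h2, if_true] at this
      exact this
    · apply S.sep
      intro n
      have := congrFun h (2 * n + 1)
      have h1 : ¬ (2 * n + 1) % 2 = 0 := by omega
      have h2 : (2 * n + 1) / 2 = n := by omega
      simp only [e, h1, h2, if_false] at this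
      exact this
  refine ⟨e, (he.isClosedEmbedding hinj).isEmbedding, ?_⟩
  intro U hU hUe
  -- the level
  obtain ⟨n, hn⟩ : ∃ n, ∀ (z : P × P) (h : ℕ → I), (∀ m < 2 * n + 2, h m = e z m) → h ∈ U := by
    by_contra hcon
    push Not at hcon
    let K : ℕ → Set ((P × P) × (ℕ → I)) := fun n =>
      {q | q.2 ∉ U ∧ ∀ m < 2 * n + 2, q.2 m = e q.1 m}
    have hcl : ∀ n, IsClosed (K n) := by
      intro n
      refine (hU.isClosed_compl.preimage continuous_snd).inter ?_
      have : {q : (P × P) × (ℕ → I) | ∀ m < 2 * n + 2, q.2 m = e q.1 m} =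
          ⋂ m, ⋂ (_ : m < 2 * n + 2), {q | q.2 m = e q.1 m} := by
        ext q; simp
      show IsClosed {q : (P × P) × (ℕ → I) | ∀ m < 2 * n + 2, q.2 m = e q.1 m}
      rw [this]
      refine isClosed_iInter fun m => isClosed_iInter fun _ => isClosed_eq (by fun_prop) ?_
      exact (continuous_apply m).comp (he.comp continuous_fst)
    have hanti : ∀ a b, a ≤ b → K b ⊆ K a := by
      rintro a b hab q ⟨h1, h2⟩
      exact ⟨h1, fun m hm => h2 m (by omega)⟩
    obtain ⟨q, hq⟩ := IsCompact.nonempty_iInter_of_directed_nonempty_isCompact_isClosed K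
      (fun i j => ⟨max i j, hanti _ _ (le_max_left _ _), hanti _ _ (le_max_right _ _)⟩)
      (fun n => by
        obtain ⟨z, h, h1, h2⟩ := hcon n
        exact ⟨(z, h), h2, h1⟩)
      (fun n => (hcl n).isCompact) hcl
    have hq' : ∀ n, q ∈ K n := fun n => mem_iInter.1 hq n
    have h1 : q.2 = e q.1 := by
      funext m
      exact (hq' m).2 m (by omega)
    exact (hq' 0).1 (h1 ▸ hUe ⟨q.1, rfl⟩)
  let s : I × I → (ℕ → I) := fun uv m => if m % 2 = 0 then B n (m / 2) uv.1 else B n (m / 2) uv.2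
  have hsc : Continuous s := by
    apply continuous_pi
    intro m
    by_cases h : m % 2 = 0
    · simp only [s, h, if_true]; fun_prop
    · simp only [s, h, if_false]; fun_prop
  have hse : ∀ z : P × P, ∀ m < 2 * n + 2, s (S.p n z.1, S.p n z.2) m = e z m := by
    intro z m hm
    have h1 : m / 2 ≤ n := by omega
    by_cases h : m % 2 = 0
    · simp only [s, e, h, if_true]; exact hB n _ h1 _
    · simp only [s, e, h, if_false]; exact hB n _ h1 _
  have hsU : ∀ uv, s uv ∈ U := by
    rintro ⟨u, v⟩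
    obtain ⟨x, rfl⟩ := hs n u
    obtain ⟨y, rfl⟩ := hs n v
    exact hn (x, y) _ (hse (x, y))
  let r : (ℕ → I) → I × I := fun h => (h (2 * n), h (2 * n + 1))
  have hr : Continuous r := by fun_prop
  have hre : ∀ z, r (e z) = (S.p n z.1, S.p n z.2) := by
    intro z
    have h1 : (2 * n) % 2 = 0 := by omega
    have h2 : (2 * n) / 2 = n := by omega
    have h3 : ¬ (2 * n + 1) % 2 = 0 := by omega
    have h4 : (2 * n + 1) / 2 = n := by omega
    simp only [r, e, h1, h2, h3, h4, if_true, if_false]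
  let F : (ℕ → I) × I → (ℕ → I) := fun q m => cc (q.1 m) (s (r q.1) m) q.2
  have hF : Continuous F := by
    apply continuous_pi
    intro m
    have c1 : Continuous fun q : (ℕ → I) × I => q.1 m := by fun_prop
    have c2 : Continuous fun q : (ℕ → I) × I => s (r q.1) m :=
      (continuous_apply m).comp (hsc.comp (hr.comp continuous_fst))
    exact continuous_cc.comp (c1.prodMk (c2.prodMk continuous_snd))
  have hFe : ∀ z t, F (e z, t) ∈ U := by
    intro z t
    apply hn z
    intro m hm
    show cc (e z m) (s (r (e z)) m) t = e z m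
    rw [hre, hse z m hm, cc_self]
  let V : Set (ℕ → I) := {h | ∀ t, F (h, t) ∈ U}
  have hV : IsOpen V := by
    have h1 : IsClosed (F ⁻¹' Uᶜ) := hU.isClosed_compl.preimage hF
    have h2 : IsClosed (Prod.fst '' (F ⁻¹' Uᶜ)) := isClosedMap_fst_of_compactSpace _ h1
    have h3 : V = (Prod.fst '' (F ⁻¹' Uᶜ))ᶜ := by
      ext h
      simp [V]
    rw [h3]
    exact h2.isOpen_compl
  have hF0 : ∀ h, F (h, 0) = h := by
    intro h
    funext m
    exact cc_zero _ _
  have hF1 : ∀ h, F (h, 1) = s (r h) := by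
    intro h
    funext m
    exact cc_one _ _
  have hVU : V ⊆ U := by
    intro h hh
    have := hh 0
    rwa [hF0] at this
  refine ⟨V, hV, ?_, hVU, ⟨s (0, 0), hsU _⟩, ?_⟩
  · rintro _ ⟨z, rfl⟩ t
    exact hFe z t
  let mid : C(V, U) := ⟨fun h => ⟨s (r h.1), hsU _⟩, by
    apply Continuous.subtype_mk
    exact hsc.comp (hr.comp continuous_subtype_val)⟩
  have H1 : (ContinuousMap.inclusion hVU).Homotopic mid := by
    refine ⟨⟨⟨fun q => ⟨F (q.2.1, q.1), q.2.2 q.1⟩, ?_⟩, ?_, ?_⟩⟩
    · apply Continuous.subtype_mk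
      exact hF.comp ((continuous_subtype_val.comp continuous_snd).prodMk continuous_fst)
    · intro x
      apply Subtype.ext
      exact hF0 x.1
    · intro x
      apply Subtype.ext
      exact hF1 x.1
  have H2 : mid.Homotopic (ContinuousMap.const V ⟨s (0, 0), hsU _⟩) := by
    refine ⟨⟨⟨fun q => ⟨s (cc (r q.2.1).1 0 q.1, cc (r q.2.1).2 0 q.1), hsU _⟩, ?_⟩, ?_, ?_⟩⟩
    · apply Continuous.subtype_mk
      have c0 : Continuous fun q : I × V => r q.2.1 :=
        hr.comp (continuous_subtype_val.comp continuous_snd)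
      have c1 : Continuous fun q : I × V => cc (r q.2.1).1 0 q.1 :=
        continuous_cc.comp ((continuous_fst.comp c0).prodMk (continuous_const.prodMk continuous_fst))
      have c2 : Continuous fun q : I × V => cc (r q.2.1).2 0 q.1 :=
        continuous_cc.comp ((continuous_snd.comp c0).prodMk (continuous_const.prodMk continuous_fst))
      exact hsc.comp (c1.prodMk c2)
    · intro x
      apply Subtype.ext
      show s (cc (r x.1).1 0 0, cc (r x.1).2 0 0) = s (r x.1)
      rw [cc_zero, cc_zero]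
    · intro x
      apply Subtype.ext
      show s (cc (r x.1).1 0 1, cc (r x.1).2 0 1) = s (0, 0)
      rw [cc_one, cc_one]
  exact H1.trans H2

end Pool.Agent.Helper531.PP
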